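import Pool.Agent.N783.CF.Stm
import Pool.Agent.N707.PF.Maj

/-!
# Project CF (helper783), part FIB (helper914): small integral generators of `L` are multiples of `θ`
-/

set_option autoImplicit false
set_option linter.all false

open Polynomial NumberField

namespace Pool.Agent.N914.CF

open Pool.Agent.N783.PF Pool.Agent.N783.CF
open Pool.Agent.N707.PF.MAJ

variable {F L : Type} [Field F] [NumberField F] [Field L] [NumberField L] [Algebra F L]
  {g B : ℕ} {f f' : (𝓞 F)[X]} {θ θ' : L} {σ : F →+* ℂ} {E : Fin (2 * g + 1) → (L →+* ℂ)}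

theorem cz : ((0 : 𝓞 F) : F) = 0 := map_zero (algebraMap (𝓞 F) F)

theorem dsc_eq (hG : IsGen g f θ) (hE : Em g f θ σ E) :
    σ ((dsc g f : 𝓞 F) : F) = ∏ k, ∏ l ∈ Finset.univ.erase k, (E k θ - E l θ) := by
  have h1 : σ ((dsc g f : 𝓞 F) : F) =
      ((fF f).map σ).resultant (derivative ((fF f).map σ)) (2 * g + 1) (2 * g) := by
    rw [derivative_map, derivative_map, resultant_map_map, resultant_map_map]
    rfl
  obtain ⟨P, hP⟩ : ∃ P : ℂ[X], P = ∏ k : Fin (2 * g + 1), (X - C (E k θ)) := ⟨_, rfl⟩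
  have hn : (fF f).map σ = P := by
    rw [nodal hG hE, hP]
    rfl
  have hd : P.natDegree = 2 * g + 1 := by
    rw [← hn, (hG.mon.map _).natDegree_map, hG.mon.natDegree_map, hG.deg]
  have hd' : (derivative P).natDegree ≤ 2 * g := by
    refine (natDegree_derivative_le P).trans ?_
    omega
  have h2 := resultant_prod_left Finset.univ (fun k : Fin (2 * g + 1) => X - C (E k θ))
    (derivative P) (2 * g) (by simp) hd'
  rw [← hP, hd] at h2
  rw [h1, hn, h2]
  refine Finset.prod_congr rfl fun k _ => ?_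
  rw [natDegree_X_sub_C, resultant_X_sub_C_left _ _ _ hd']
  have h3 := Lagrange.eval_nodal_derivative_eval_node_eq (v := fun k => E k θ) (Finset.mem_univ k)
  rw [Lagrange.eval_nodal] at h3
  rw [hP]
  exact h3

theorem root_le (hG : IsGen g f θ) (hE : Em g f θ σ E) (hf : Ht g B f) (k : Fin (2 * g + 1)) :
    ‖E k θ‖ ≤ 2 * B := by
  refine root_bd hf σ ?_
  rw [← hE.eval, hG.root, map_zero]

theorem dk_up (hG : IsGen g f θ) (hE : Em g f θ σ E) (hf : Ht g B f) (k : Fin (2 * g + 1)) :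
    ‖∏ l ∈ Finset.univ.erase k, (E k θ - E l θ)‖ ≤ (4 * B : ℝ) ^ (2 * g) := by
  rw [norm_prod]
  calc ∏ l ∈ Finset.univ.erase k, ‖E k θ - E l θ‖
      ≤ ∏ l ∈ (Finset.univ : Finset (Fin (2 * g + 1))).erase k, (4 * B : ℝ) := by
        refine Finset.prod_le_prod (fun l _ => norm_nonneg _) fun l _ => ?_
        refine (norm_sub_le _ _).trans ?_
        have := root_le hG hE hf k
        have := root_le hG hE hf l
        linarith
    _ = _ := by
        rw [Finset.prod_const, Finset.card_erase_of_mem (Finset.mem_univ _),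
          Finset.card_fin, Nat.add_sub_cancel]

theorem dk_low (hG : IsGen g f θ) (hE : Em g f θ σ E) (hf : Ht g B f) (hB : 1 ≤ B) {δ : ℝ}
    (hbig : Big g B δ f) (k : Fin (2 * g + 1)) :
    δ / 4 ^ (2 * g * (2 * g)) * (B : ℝ) ^ (2 * g) ≤
      ‖∏ l ∈ Finset.univ.erase k, (E k θ - E l θ)‖ := by
  have hB0 : (0 : ℝ) < B := by exact_mod_cast hB
  have h1 := hbig σ
  rw [dsc_eq hG hE, norm_prod, ← Finset.mul_prod_erase _ _ (Finset.mem_univ k)] at h1
  have h2 : ∏ j ∈ (Finset.univ : Finset (Fin (2 * g + 1))).erase k,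
      ‖∏ l ∈ Finset.univ.erase j, (E j θ - E l θ)‖ ≤ ((4 * B : ℝ) ^ (2 * g)) ^ (2 * g) := by
    calc ∏ j ∈ (Finset.univ : Finset (Fin (2 * g + 1))).erase k,
        ‖∏ l ∈ Finset.univ.erase j, (E j θ - E l θ)‖
        ≤ ∏ j ∈ (Finset.univ : Finset (Fin (2 * g + 1))).erase k, (4 * B : ℝ) ^ (2 * g) :=
          Finset.prod_le_prod (fun l _ => norm_nonneg _) fun l _ => dk_up hG hE hf l
      _ = _ := by
          rw [Finset.prod_const, Finset.card_erase_of_mem (Finset.mem_univ _),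
            Finset.card_fin, Nat.add_sub_cancel]
  have h3 := h1.trans (mul_le_mul_of_nonneg_left h2 (norm_nonneg _))
  rw [← pow_mul, mul_pow] at h3
  have h4 : (B : ℝ) ^ (2 * g * (2 * g + 1)) = (B : ℝ) ^ (2 * g) * (B : ℝ) ^ (2 * g * (2 * g)) := by
    rw [← pow_add]
    congr 1
    ring
  rw [h4] at h3
  have h5 : 0 < (B : ℝ) ^ (2 * g * (2 * g)) := by positivity
  have h6 : δ * (B : ℝ) ^ (2 * g) ≤
      ‖∏ l ∈ Finset.univ.erase k, (E k θ - E l θ)‖ * 4 ^ (2 * g * (2 * g)) := by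
    refine le_of_mul_le_mul_right ?_ h5
    calc δ * (B : ℝ) ^ (2 * g) * (B : ℝ) ^ (2 * g * (2 * g))
        = δ * ((B : ℝ) ^ (2 * g) * (B : ℝ) ^ (2 * g * (2 * g))) := by ring
      _ ≤ _ := h3
      _ = _ := by ring
  rw [div_mul_eq_mul_div, div_le_iff₀ (by positivity)]
  exact h6

theorem top_bd (hG : IsGen g f θ) (hE : Em g f θ σ E) {c M : ℝ} (hc : 0 < c)
    (hd : ∀ k, c ≤ ‖∏ l ∈ Finset.univ.erase k, (E k θ - E l θ)‖) (x : L)
    (hx : ∀ k, ‖E k x‖ ≤ M) : ‖σ (hG.top x)‖ ≤ (2 * g + 1) * (M / c) := by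
  rw [euler hG hE]
  refine (norm_sum_le _ _).trans ?_
  calc ∑ k, ‖E k x / ∏ l ∈ Finset.univ.erase k, (E k θ - E l θ)‖
      ≤ ∑ k : Fin (2 * g + 1), M / c := by
        refine Finset.sum_le_sum fun k _ => ?_
        rw [norm_div]
        exact div_le_div₀ ((norm_nonneg _).trans (hx k)) (hx k) hc (hd k)
    _ = _ := by
        rw [Finset.sum_const, Finset.card_fin, nsmul_eq_mul]
        push_cast
        ring

theorem top_pow (hG : IsGen g f θ) (m : ℕ) (hm : m ≤ 2 * g) :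
    hG.top (θ ^ m) = if m = 2 * g then 1 else 0 := by
  have h1 : θ ^ m = hG.basis ⟨m, by omega⟩ := by rw [hG.basis_apply]
  rw [h1, IsGen.top, Module.Basis.coord_apply, Module.Basis.repr_self, Finsupp.single_apply]
  have h2 : ((⟨m, by omega⟩ : Fin (2 * g + 1)) = Fin.last (2 * g)) ↔ m = 2 * g := by
    rw [Fin.ext_iff, Fin.val_last]
  by_cases h3 : m = 2 * g
  · rw [if_pos (h2.2 h3), if_pos h3]
  · rw [if_neg (fun h => h3 (h2.1 h)), if_neg h3]

theorem top_coef (hG : IsGen g f θ) (v : Fin (2 * g + 1) → 𝓞 F) (i : Fin (2 * g + 1))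
    (hv : ∀ j, i < j → v j = 0) :
    hG.top (θ ^ (2 * g - (i : ℕ)) * ∑ j, algebraMap F L (v j : F) * θ ^ (j : ℕ)) = (v i : F) := by
  rw [Finset.mul_sum, map_sum, Finset.sum_eq_single i]
  · have h1 : θ ^ (2 * g - (i : ℕ)) * (algebraMap F L (v i : F) * θ ^ (i : ℕ)) =
        (v i : F) • θ ^ (2 * g) := by
      have h2 : 2 * g = (2 * g - (i : ℕ)) + (i : ℕ) := by
        have := i.isLt
        omega
      rw [Algebra.smul_def]
      conv_rhs => rw [h2, pow_add]
      ring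
    rw [h1, map_smul, top_pow hG _ le_rfl, if_pos rfl, smul_eq_mul, mul_one]
  · intro j _ hj
    rcases lt_or_gt_of_ne hj with h | h
    · have h1 : θ ^ (2 * g - (i : ℕ)) * (algebraMap F L (v j : F) * θ ^ (j : ℕ)) =
          (v j : F) • θ ^ (2 * g - (i : ℕ) + (j : ℕ)) := by
        rw [Algebra.smul_def, pow_add]
        ring
      have h2 := Fin.lt_def.1 h
      have h3 := i.isLt
      rw [h1, map_smul, top_pow hG _ (by omega), if_neg (by omega), smul_zero]
    · rw [hv j h, cz, map_zero, zero_mul, mul_zero, map_zero]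
  · intro h
    exact absurd (Finset.mem_univ _) h

theorem gen_int (hG : IsGen g f θ) : IsIntegral ℤ θ := by
  have h1 : IsIntegral (𝓞 F) θ := by
    refine ⟨f, hG.mon, ?_⟩
    have h2 := hG.root
    rw [aeval_map_algebraMap] at h2
    exact h2
  exact isIntegral_trans (R := ℤ) (A := 𝓞 F) θ h1

theorem sum_zero (hG : IsGen g f θ) (hE : Em g f θ σ E) (hf : Ht g B f) : ∑ k, E k θ = 0 := by
  have h1 : ((fF f).map σ).coeff (2 * g) = 0 := by
    rw [coeff_map, coeff_map, hf.tr, map_zero, map_zero]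
  rw [nodal hG hE, Lagrange.nodal_eq] at h1
  have h2 := prod_X_sub_C_coeff_card_pred (Finset.univ : Finset (Fin (2 * g + 1)))
    (fun k => E k θ) (by simp)
  rw [Finset.card_fin, Nat.add_sub_cancel, h1] at h2
  exact neg_eq_zero.1 h2.symm

theorem t_FIB : Pool.Agent.N783.PF.S_PTS → Pool.Agent.N783.PF.S_INT → S_FIB := by
  intro hP hI g F _ _ hg δ hδ
  obtain ⟨c, hc⟩ : ∃ c : ℝ, c = δ / 4 ^ (2 * g * (2 * g)) := ⟨_, rfl⟩
  have hc0 : 0 < c := by
    rw [hc]
    positivity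
  obtain ⟨C, hC⟩ : ∃ C : ℝ, C = (2 * g + 1) * (2 ^ (2 * g) / c) := ⟨_, rfl⟩
  have hC0 : 0 < C := by
    rw [hC]
    positivity
  obtain ⟨B₀, hB₀⟩ := exists_nat_gt C
  refine ⟨C, B₀, fun B hB L _ _ _ f f' θ θ' hG hG' hf hsq hbig hf' => ?_⟩
  have hBC : C < B := hB₀.trans_le (by exact_mod_cast hB)
  have hB0 : (0 : ℝ) < B := hC0.trans hBC
  have hB1 : 1 ≤ B := by exact_mod_cast hB0
  obtain ⟨v, hv⟩ := (hI g F L f θ hG hsq θ').1 (gen_int hG')
  have hbd : ∀ i : Fin (2 * g + 1), (∀ j, i < j → v j = 0) → ∀ σ : F →+* ℂ,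
      ‖σ (v i : F)‖ ≤ (2 * g + 1) * ((2 * B : ℝ) ^ (2 * g - (i : ℕ) + 1) / (c * (B : ℝ) ^ (2 * g))) := by
    intro i hi σ
    obtain ⟨E, hE⟩ := exists_emb hG σ
    have hE' : Em g f' θ' σ E := ⟨hE.inj, hE.com⟩
    rw [← top_coef hG v i hi, ← hv]
    refine top_bd hG hE (by positivity) (fun k => ?_) _ fun k => ?_
    · have h := dk_low hG hE hf hB1 hbig k
      rw [← hc] at h
      exact h
    · rw [map_mul, map_pow, norm_mul, norm_pow, pow_succ]
      exact mul_le_mul (pow_le_pow_left₀ (norm_nonneg _) (root_le hG hE hf k) _)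
        (root_le hG' hE' hf' k) (norm_nonneg _) (by positivity)
  have h2B : (1 : ℝ) ≤ 2 * B := by
    have : (1 : ℝ) ≤ B := by exact_mod_cast hB1
    linarith
  have hz : ∀ m : ℕ, ∀ i : Fin (2 * g + 1), 2 ≤ (i : ℕ) → 2 * g - (i : ℕ) = m → v i = 0 := by
    intro m
    induction m using Nat.strong_induction_on with
    | _ m ih =>
      intro i hi hm
      have hi' : ∀ j, i < j → v j = 0 := by
        intro j hj
        have h1 := Fin.lt_def.1 hj
        have h2 := j.isLt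
        exact ih (2 * g - (j : ℕ)) (by omega) j (by omega) rfl
      refine (hP F).1 (v i) (C / B) ((div_lt_one hB0).2 hBC) fun σ => ?_
      refine (hbd i hi' σ).trans ?_
      have h3 : (2 * B : ℝ) ^ (2 * g - (i : ℕ) + 1) ≤ (2 * B : ℝ) ^ (2 * g - 1) :=
        pow_le_pow_right₀ h2B (by have := i.isLt; omega)
      have h4 : (2 * B : ℝ) ^ (2 * g - 1) * B ≤ (2 * B : ℝ) ^ (2 * g) := by
        calc (2 * B : ℝ) ^ (2 * g - 1) * B ≤ (2 * B : ℝ) ^ (2 * g - 1) * (2 * B) :=
              mul_le_mul_of_nonneg_left (by linarith) (by positivity)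
          _ = (2 * B : ℝ) ^ (2 * g) := by
              rw [← pow_succ]
              congr 1
              omega
      have h5 : (2 * B : ℝ) ^ (2 * g - 1) / (c * (B : ℝ) ^ (2 * g)) ≤ 2 ^ (2 * g) / c / B := by
        rw [div_div, div_le_div_iff₀ (by positivity) (by positivity)]
        calc (2 * B : ℝ) ^ (2 * g - 1) * (c * B) = c * ((2 * B : ℝ) ^ (2 * g - 1) * B) := by ring
          _ ≤ c * (2 * B : ℝ) ^ (2 * g) := mul_le_mul_of_nonneg_left h4 hc0.le
          _ = _ := by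
              rw [mul_pow]
              ring
      calc (2 * g + 1) * ((2 * B : ℝ) ^ (2 * g - (i : ℕ) + 1) / (c * (B : ℝ) ^ (2 * g)))
          ≤ (2 * g + 1) * (2 ^ (2 * g) / c / B) := by
            refine mul_le_mul_of_nonneg_left (le_trans ?_ h5) (by positivity)
            exact div_le_div_of_nonneg_right h3 (by positivity)
        _ = C / B := by
            rw [hC]
            ring
  obtain ⟨i0, hi0⟩ : ∃ i : Fin (2 * g + 1), (i : ℕ) = 0 := ⟨⟨0, by omega⟩, rfl⟩
  obtain ⟨i1, hi1⟩ : ∃ i : Fin (2 * g + 1), (i : ℕ) = 1 := ⟨⟨1, by omega⟩, rfl⟩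
  have h01 : i0 ≠ i1 := fun h => by
    rw [h, hi1] at hi0
    exact absurd hi0 one_ne_zero
  have hrest : ∀ j : Fin (2 * g + 1), j ≠ i0 → j ≠ i1 → v j = 0 := by
    intro j h0 h1
    refine hz _ j ?_ rfl
    by_contra h2
    have h3 : (j : ℕ) = 0 ∨ (j : ℕ) = 1 := by omega
    rcases h3 with h3 | h3
    · exact h0 (Fin.ext (h3.trans hi0.symm))
    · exact h1 (Fin.ext (h3.trans hi1.symm))
  have hθ : θ' = algebraMap F L (v i0 : F) + algebraMap F L (v i1 : F) * θ := by
    rw [hv, Finset.sum_eq_add i0 i1 h01]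
    · rw [hi0, hi1, pow_zero, pow_one, mul_one]
    · intro j _ hj
      rw [hrest j hj.1 hj.2, cz, map_zero, zero_mul]
    · intro h
      exact absurd (Finset.mem_univ _) h
    · intro h
      exact absurd (Finset.mem_univ _) h
  refine ⟨v i1, fun σ => ?_, ?_⟩
  · refine (hbd i1 (fun j hj => ?_) σ).trans ?_
    · refine hrest j (fun h => ?_) hj.ne'
      have h1 := Fin.lt_def.1 hj
      rw [h, hi0] at h1
      omega
    · rw [hi1, hC]
      have h1 : 2 * g - 1 + 1 = 2 * g := by omega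
      rw [h1, mul_pow]
      refine le_of_eq ?_
      have h2 : (B : ℝ) ^ (2 * g) ≠ 0 := by positivity
      field_simp
  · have h0 : v i0 = 0 := by
      obtain ⟨σ⟩ : Nonempty (F →+* ℂ) := inferInstance
      obtain ⟨E, hE⟩ := exists_emb hG σ
      have hE' : Em g f' θ' σ E := ⟨hE.inj, hE.com⟩
      have h1 := sum_zero hG' hE' hf'
      have h2 := sum_zero hG hE hf
      rw [hθ] at h1
      simp only [map_add, map_mul, hE.com] at h1
      rw [Finset.sum_add_distrib, ← Finset.mul_sum, h2, mul_zero, add_zero, Finset.sum_const,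
        Finset.card_fin, nsmul_eq_mul] at h1
      have h3 : ((2 * g + 1 : ℕ) : ℂ) ≠ 0 := by
        exact_mod_cast (by omega : 2 * g + 1 ≠ 0)
      have h4 := (mul_eq_zero.1 h1).resolve_left h3
      have h5 : (v i0 : F) = 0 := (map_eq_zero σ).1 h4
      exact_mod_cast h5
    rw [hθ, h0, cz, map_zero, zero_add]

end Pool.Agent.N914.CF
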